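import Pool.Agent.Helper71.JN.SheetD
import Pool.Agent.Helper8.SUBW.MODW

/-!
Row SPH of project JN (MP_9d7cd1_nt): sums of S-units of polynomial size. The proof follows the
rows MODW (helper8) and HBW (helper93) of project SUBW.
-/

set_option autoImplicit false

namespace Pool.Agent.Helper97.JN

open Filter Finset Matrix Pool.Agent.Helper70.SUB Pool.Agent.Helper77.SUBK
  Pool.Agent.Helper70.SUBL Pool.Agent.Helper70.SUBW Pool.Agent.Helper71.JN
  Pool.Agent.Helper8.SUBW

/-- if the sum is of polynomial size at all places and the terms are linearly independent over the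
constants, then the terms are moderate -/
theorem modh (hSUB : ST_SUBTU) (hSLW : ST_SLW) (hPRK : ST_PRK) (M : Type) [Field M]
    [NumberField M] [IsGalois ℚ M] (S : Finset ℕ) (P : PF S M) (φ : Ultrafilter ℕ) (X : ℕ → ℝ)
    (ι : Type) [Fintype ι] [DecidableEq ι] (c u : ι → ℕ → M) (B : ℝ) (hSp : ∀ p ∈ S, p.Prime)
    (hX : Tendsto X (φ : Filter ℕ) atTop) (hc : ∀ i, Slw P φ X (c i))
    (hc0 : ∀ i, ∀ᶠ j in (φ : Filter ℕ), c i j ≠ 0)
    (hu : ∀ i, ∀ᶠ j in (φ : Filter ℕ), SV S (u i j))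
    (hx : ∀ᶠ j in (φ : Filter ℕ), HB P (X j ^ B) (∑ i, c i j * u i j))
    (hind : ∀ a : ι → M, a ≠ 0 → ¬ ∀ᶠ j in (φ : Filter ℕ), ∑ i, a i * (c i j * u i j) = 0)
    (i1 : ι) : MU P φ X (u i1) := by
  classical
  by_contra hnot
  obtain ⟨-, -, -, -, s5, s6, -, -, -, -, -, s12, -⟩ := hSLW M S P φ X hSp hX
  obtain ⟨-, hpfS, -⟩ := hPRK M S P hSp
  have hX1 : ∀ᶠ j in (φ : Filter ℕ), (1 : ℝ) ≤ X j := hX.eventually_ge_atTop 1
  -- the place where the height is attained
  set T0 : Finset (ι × Option ℕ × (M ≃ₐ[ℚ] M)) :=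
    (Finset.univ : Finset ι) ×ˢ (plc S) ×ˢ (Finset.univ : Finset (M ≃ₐ[ℚ] M)) with hT0
  have hne : T0.Nonempty := ⟨(i1, none, 1), by
    simp only [hT0, Finset.mem_product, Finset.mem_univ, true_and, and_true]
    exact mem_none⟩
  have hex : ∀ᶠ j in (φ : Filter ℕ), ∃ t ∈ (T0 : Set (ι × Option ℕ × (M ≃ₐ[ℚ] M))),
      ∀ t' ∈ T0, P.nv t'.2.1 (t'.2.2 (u t'.1 j)) ≤ P.nv t.2.1 (t.2.2 (u t.1 j)) := by
    refine Filter.Eventually.of_forall fun j => ?_
    obtain ⟨t, ht, h⟩ := Finset.exists_max_image T0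
      (fun t => P.nv t.2.1 (t.2.2 (u t.1 j))) hne
    exact ⟨t, ht, h⟩
  rw [Ultrafilter.eventually_exists_mem_iff T0.finite_toSet] at hex
  obtain ⟨⟨i₀, v, σ⟩, ht, hmax⟩ := hex
  have hv : v ∈ plc S := by
    have h1 : (i₀, v, σ) ∈ T0 := ht
    simp only [hT0, Finset.mem_product, Finset.mem_univ, true_and, and_true] at h1
    exact h1
  have hmax' : ∀ᶠ j in (φ : Filter ℕ), ∀ (i : ι), ∀ v' ∈ plc S, ∀ σ' : M ≃ₐ[ℚ] M,
      P.nv v' (σ' (u i j)) ≤ P.nv v (σ (u i₀ j)) := by
    filter_upwards [hmax] with j hj i v' hv' σ'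
    refine hj (i, v', σ') ?_
    simp only [hT0, Finset.mem_product, Finset.mem_univ, true_and, and_true]
    exact hv'
  set H : ℕ → ℝ := fun j => P.nv v (σ (u i₀ j)) with hH
  have hbig : ∀ A : ℝ, 0 < A → ∀ᶠ j in (φ : Filter ℕ), X j ^ A < H j := by
    intro A hA
    by_contra h
    rw [← Ultrafilter.eventually_not] at h
    refine hnot ⟨hu i1, A, hA, ?_⟩
    filter_upwards [h, hmax'] with j h1 h2
    intro v' hv' σ'
    exact (h2 i1 v' hv' σ').trans (not_lt.mp h1)
  have hHt : Tendsto H (φ : Filter ℕ) atTop := by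
    refine Filter.tendsto_atTop_mono' (φ : Filter ℕ) ?_ hX
    filter_upwards [hbig 1 one_pos] with j h1
    rw [Real.rpow_one] at h1
    exact h1.le
  have hpw := pow_le_of_big φ X H hX hbig
  have hSV : ∀ᶠ j in (φ : Filter ℕ), ∀ i, SV S (u i j) := Filter.eventually_all.mpr hu
  have hcs : ∀ᶠ j in (φ : Filter ℕ), ∀ v' ∈ plc S, ∀ (σ' : M ≃ₐ[ℚ] M) (i : ι),
      P.nv v' (σ' (c i j)) ≤ X j ^ (1 : ℝ) := by
    rw [Filter.eventually_all_finset]
    intro v' hv'
    rw [Filter.eventually_all]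
    intro σ'
    rw [Filter.eventually_all]
    intro i
    exact s5 (c i) (hc i) v' hv' σ' 1 one_pos
  have hlow : ∀ᶠ j in (φ : Filter ℕ), X j ^ (-(1 : ℝ)) ≤ P.nv v (σ (c i₀ j)) :=
    s6 (c i₀) (hc i₀) (hc0 i₀) v hv σ 1 one_pos
  set T : ℕ := (plc S).card * (Fintype.card (M ≃ₐ[ℚ] M) * Fintype.card ι) with hT
  -- the value of the form with all coefficients one
  have hval : ∀ᶠ j in (φ : Filter ℕ),
      P.nv v (σ (∑ i, c i j * u i j)) ≤ X j ^ (max B 0) := by
    filter_upwards [hx, hX1] with j h1 h2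
    exact (h1 v hv σ).trans (Real.rpow_le_rpow_of_exponent_le h2 (le_max_left _ _))
  obtain ⟨a, ha, hrel⟩ := hSUB M S P ι (fL P v σ i₀ (fun _ => 1)) (1 / 2) 2 φ H
    (fun j i => c i j * u i j) ⟨i₀⟩ hSp
    (fun v' _ σ' => fL_det P v σ i₀ _ one_ne_zero v' σ')
    (fun v' _ σ' σ'' h => fL_con P v σ i₀ _ v' σ' σ'' h) (by norm_num) hHt
    (by
      intro ε' hε'
      filter_upwards [s12 ι Finset.univ c (fun i _ => hc i) 1 one_pos, hSV, hpw 1 ε' hε']
        with j hD hj hle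
      obtain ⟨D, hD0, hDle, hDi⟩ := hD
      refine ⟨D, hD0, hDle.trans hle, fun i => ?_⟩
      obtain ⟨n, hn, hni⟩ := (hj i).2.1
      refine ⟨n, hn, ?_⟩
      have h1 := (hDi i (Finset.mem_univ i)).mul hni
      have h2 : (n : M) * ((D : M) * (c i j * u i j)) = (D : M) * c i j * ((n : M) * u i j) := by
        ring
      rw [h2]
      exact h1)
    (by
      filter_upwards [hcs, hmax', hpw 1 1 one_pos] with j h1 h2 h3
      intro v' hv' σ' i
      have hH0 : 0 ≤ H j := P.nn _ _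
      rw [map_mul, P.mul v' hv']
      have e1 : H j ^ (2 : ℝ) = H j ^ (1 : ℝ) * H j := by
        rw [Real.rpow_one, Real.rpow_two, sq]
      rw [e1]
      exact mul_le_mul ((h1 v' hv' σ' i).trans h3) (h2 i v' hv' σ') (P.nn _ _)
        (Real.rpow_nonneg hH0 _))
    (by
      filter_upwards [hcs, hX1, hSV, hlow, hval, hpw (max B 0 + 1) 1 one_pos,
        hpw (T + (max B 0 + 1)) (1 / 2) (by norm_num), hHt.eventually_ge_atTop 1]
        with j h1 h3 h4 h5 h7 h8 h9 h10
      have hXp : 0 < X j := by linarith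
      have hHp : 0 < H j := by linarith
      have hcp : 0 < P.nv v (σ (c i₀ j)) := lt_of_lt_of_le (Real.rpow_pos_of_pos hXp _) h5
      have hxp : 0 < P.nv v (σ (c i₀ j * u i₀ j)) := by
        rw [map_mul, P.mul v hv]
        exact mul_pos hcp hHp
      have hone : (∑ i, (fun _ : ι => (1 : M)) i * (c i j * u i j)) = ∑ i, c i j * u i j :=
        Finset.sum_congr rfl fun i _ => one_mul _
      have hr : P.nv v (σ (∑ i, (fun _ : ι => (1 : M)) i * (c i j * u i j))) /
          P.nv v (σ (c i₀ j * u i₀ j)) ≤ X j ^ (max B 0 + 1) * (H j)⁻¹ := by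
        rw [hone, div_le_iff₀ hxp, map_mul, P.mul v hv]
        refine h7.trans ?_
        have e1 : X j ^ (max B 0) = X j ^ (max B 0 + 1) * (H j)⁻¹ *
            (X j ^ (-(1 : ℝ)) * H j) := by
          have e0 : X j ^ (max B 0) = X j ^ (max B 0 + 1) * X j ^ (-(1 : ℝ)) := by
            rw [← Real.rpow_add hXp]
            congr 1
            ring
          rw [e0]
          field_simp
        calc X j ^ (max B 0) = X j ^ (max B 0 + 1) * (H j)⁻¹ * (X j ^ (-(1 : ℝ)) * H j) := e1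
          _ ≤ X j ^ (max B 0 + 1) * (H j)⁻¹ * (P.nv v (σ (c i₀ j)) * H j) := by
              refine mul_le_mul_of_nonneg_left (mul_le_mul_of_nonneg_right h5 hHp.le) ?_
              exact mul_nonneg (Real.rpow_nonneg hXp.le _) (inv_nonneg.mpr hHp.le)
      have hr1 : P.nv v (σ (∑ i, (fun _ : ι => (1 : M)) i * (c i j * u i j))) /
          P.nv v (σ (c i₀ j * u i₀ j)) ≤ 1 := by
        refine hr.trans ?_
        rw [← div_eq_mul_inv, div_le_one hHp]
        rwa [Real.rpow_one] at h8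
      refine (fL_prod P v σ i₀ (fun _ => 1) (fun i => c i j * u i j) hv hxp hr1).trans ?_
      have hu1 : ∏ v' ∈ plc S, ∏ σ' : M ≃ₐ[ℚ] M, ∏ i, P.nv v' (σ' (u i j)) = 1 := by
        have e1 : ∏ i, ∏ v' ∈ plc S, ∏ σ' : M ≃ₐ[ℚ] M, P.nv v' (σ' (u i j)) =
            ∏ v' ∈ plc S, ∏ σ' : M ≃ₐ[ℚ] M, ∏ i, P.nv v' (σ' (u i j)) :=
          Finset.prod_comm.trans (Finset.prod_congr rfl fun v' _ => Finset.prod_comm)
        rw [← e1]
        exact Finset.prod_eq_one fun i _ => hpfS (u i j) (h4 i)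
      have hsplit : ∏ v' ∈ plc S, ∏ σ' : M ≃ₐ[ℚ] M, ∏ i, P.nv v' (σ' (c i j * u i j)) =
          ∏ v' ∈ plc S, ∏ σ' : M ≃ₐ[ℚ] M, ∏ i, P.nv v' (σ' (c i j)) := by
        have e1 : ∏ v' ∈ plc S, ∏ σ' : M ≃ₐ[ℚ] M, ∏ i, P.nv v' (σ' (c i j * u i j)) =
            (∏ v' ∈ plc S, ∏ σ' : M ≃ₐ[ℚ] M, ∏ i, P.nv v' (σ' (c i j))) *
            ∏ v' ∈ plc S, ∏ σ' : M ≃ₐ[ℚ] M, ∏ i, P.nv v' (σ' (u i j)) := by
          rw [← Finset.prod_mul_distrib]
          refine Finset.prod_congr rfl fun v' hv' => ?_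
          rw [← Finset.prod_mul_distrib]
          refine Finset.prod_congr rfl fun σ' _ => ?_
          rw [← Finset.prod_mul_distrib]
          refine Finset.prod_congr rfl fun i _ => ?_
          rw [map_mul, P.mul v' hv']
        rw [e1, hu1, mul_one]
      have hcb : ∏ v' ∈ plc S, ∏ σ' : M ≃ₐ[ℚ] M, ∏ i, P.nv v' (σ' (c i j)) ≤
          (X j ^ (1 : ℝ)) ^ T := by
        calc ∏ v' ∈ plc S, ∏ σ' : M ≃ₐ[ℚ] M, ∏ i, P.nv v' (σ' (c i j))
            ≤ ∏ v' ∈ plc S, ∏ σ' : M ≃ₐ[ℚ] M, ∏ i : ι, X j ^ (1 : ℝ) := by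
              refine Finset.prod_le_prod (fun v' _ => Finset.prod_nonneg fun σ' _ =>
                Finset.prod_nonneg fun i _ => P.nn _ _) fun v' hv' => ?_
              refine Finset.prod_le_prod (fun σ' _ => Finset.prod_nonneg fun i _ => P.nn _ _)
                fun σ' _ => ?_
              exact Finset.prod_le_prod (fun i _ => P.nn _ _) fun i _ => h1 v' hv' σ' i
          _ = (X j ^ (1 : ℝ)) ^ T := by
              rw [Finset.prod_const, Finset.prod_const, Finset.prod_const, Finset.card_univ,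
                Finset.card_univ, ← pow_mul, ← pow_mul, hT]
              congr 1
              ring
      have hpow : (X j ^ (1 : ℝ)) ^ T = X j ^ (T : ℝ) := by
        rw [Real.rpow_one, Real.rpow_natCast]
      rw [hsplit]
      have hcb0 : 0 ≤ (X j ^ (1 : ℝ)) ^ T := pow_nonneg (Real.rpow_nonneg hXp.le _) _
      refine (mul_le_mul hcb hr (div_nonneg (P.nn _ _) hxp.le) hcb0).trans ?_
      rw [hpow, ← mul_assoc, ← Real.rpow_add hXp]
      have e5 : H j ^ (-(1 / 2) : ℝ) = H j ^ (1 / 2 : ℝ) * (H j)⁻¹ := by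
        rw [← Real.rpow_neg_one (H j), ← Real.rpow_add hHp]
        congr 1
        norm_num
      rw [e5]
      exact mul_le_mul_of_nonneg_right h9 (inv_nonneg.mpr hHp.le))
  exact hind a ha hrel

/-- a sum of S-units with slow coefficients which is of polynomial size at all places is a sum of
moderate S-units with slow coefficients -/
theorem SPH (hSUB : ST_SUBTU) (hSLW : ST_SLW) (hPRK : ST_PRK) : ST_SPH := by
  intro M _ _ _ S P φ X x B hS hX hx hxB
  classical
  obtain ⟨hconst, hadd, -⟩ := hSLW M S P φ X hS hX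
  have hex : ∃ t : ℕ, ∃ c u : Fin t → ℕ → M, (∀ i, Slw P φ X (c i)) ∧
      (∀ i, ∀ᶠ j in (φ : Filter ℕ), SV S (u i j)) ∧
      ∀ᶠ j in (φ : Filter ℕ), ∑ i, c i j * u i j = x j := hx
  obtain ⟨c, u, hc, hu, hs⟩ := Nat.find_spec hex
  have hmin : ∀ t' < Nat.find hex, ¬ ∃ c u : Fin t' → ℕ → M, (∀ i, Slw P φ X (c i)) ∧
      (∀ i, ∀ᶠ j in (φ : Filter ℕ), SV S (u i j)) ∧
      ∀ᶠ j in (φ : Filter ℕ), ∑ i, c i j * u i j = x j := fun t' h => Nat.find_min hex h
  generalize Nat.find hex = t at c u hc hu hs hmin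
  have hind : ∀ a : Fin t → M, a ≠ 0 → ¬ ∀ᶠ j in (φ : Filter ℕ),
      ∑ i, a i * (c i j * u i j) = 0 := by
    intro a ha h0
    obtain ⟨k, hk⟩ : ∃ k, a k ≠ 0 := by
      by_contra hcon
      push Not at hcon
      exact ha (funext hcon)
    obtain ⟨s, rfl⟩ : ∃ s, t = s + 1 := ⟨t - 1, by have := k.pos; omega⟩
    refine hmin s (Nat.lt_succ_self s) ⟨fun i j => (1 - a (k.succAbove i) / a k) *
      c (k.succAbove i) j, fun i => u (k.succAbove i), fun i => ?_, fun i => hu _, ?_⟩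
    · exact (hadd _ _ (hconst (1 - a (k.succAbove i) / a k)) (hc (k.succAbove i))).2
    · filter_upwards [hs, h0] with j h1 h2
      rw [Fin.sum_univ_succAbove _ k] at h1 h2
      have h3 : c k j * u k j = -∑ i : Fin s, (a (k.succAbove i) / a k) *
          (c (k.succAbove i) j * u (k.succAbove i) j) := by
        have h4 : a k * (c k j * u k j + ∑ i : Fin s, (a (k.succAbove i) / a k) *
            (c (k.succAbove i) j * u (k.succAbove i) j)) = 0 := by
          rw [mul_add, Finset.mul_sum, ← h2]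
          congr 1
          refine Finset.sum_congr rfl fun i _ => ?_
          field_simp
        rcases mul_eq_zero.1 h4 with h5 | h5
        · exact absurd h5 hk
        · exact eq_neg_of_add_eq_zero_left h5
      rw [← h1, h3, ← Finset.sum_neg_distrib, ← Finset.sum_add_distrib]
      refine Finset.sum_congr rfl fun i _ => ?_
      ring
  have hne : ∀ i, ∀ᶠ j in (φ : Filter ℕ), c i j ≠ 0 := by
    intro i
    by_contra hcon
    rw [← Ultrafilter.eventually_not] at hcon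
    refine hind (Pi.single i 1) ?_ ?_
    · intro h
      have := congrFun h i
      simp at this
    · filter_upwards [hcon] with j hj
      rw [Finset.sum_eq_single i]
      · rw [not_not.1 hj]; simp
      · intro b _ hb
        rw [Pi.single_eq_of_ne hb]; simp
      · intro h; exact absurd (Finset.mem_univ i) h
  refine ⟨t, c, u, hc, ?_, hs⟩
  exact modh hSUB hSLW hPRK M S P φ X (Fin t) c u B hS hX hc hne hu
    (by filter_upwards [hs, hxB] with j h1 h2; rw [h1]; exact h2) hind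

end Pool.Agent.Helper97.JN
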