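import Pool.Agent.Helper71.JN.SheetA

/-! Row NRM of project JN (MP_9d7cd1_nt): the absolute values of the field `Om`. -/

set_option autoImplicit false

namespace Pool.Agent.Helper97.JN

open Filter Finset Pool.Agent.Helper70.SUB Pool.Agent.Helper77.SUBK Pool.Agent.Helper70.SUBL
  Pool.Agent.Helper70.SUBW Pool.Agent.Helper71.JN

/-- the exponent of a sequence of positive numbers of polynomial size -/
theorem exists_expo {φ : Ultrafilter ℕ} {X f : ℕ → ℝ} (hX : Tendsto X (φ : Filter ℕ) atTop)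
    (h : ∃ A : ℝ, ∀ᶠ j in (φ : Filter ℕ), X j ^ (-A) ≤ f j ∧ f j ≤ X j ^ A) :
    ∃ L : ℝ, ∀ a : ℝ, (L ≤ a ↔ ∀ ε : ℝ, 0 < ε → ∀ᶠ j in (φ : Filter ℕ), f j ≤ X j ^ (a + ε)) ∧
      (a ≤ L ↔ ∀ ε : ℝ, 0 < ε → ∀ᶠ j in (φ : Filter ℕ), X j ^ (a - ε) ≤ f j) := by
  obtain ⟨A, hA⟩ := h
  have hX1 : ∀ᶠ j in (φ : Filter ℕ), 1 < X j := hX.eventually_gt_atTop 1
  set T : Set ℝ := {a | ∀ᶠ j in (φ : Filter ℕ), X j ^ a ≤ f j} with hT
  have hne : T.Nonempty := ⟨-A, hA.mono fun j hj => hj.1⟩
  have hbd : BddAbove T := by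
    refine ⟨A, fun a ha => ?_⟩
    by_contra hlt
    push Not at hlt
    have hf : ∀ᶠ j in (φ : Filter ℕ), False := by
      have ha' : ∀ᶠ j in (φ : Filter ℕ), X j ^ a ≤ f j := ha
      filter_upwards [ha', hA, hX1] with j h1 h2 h3
      have := Real.rpow_lt_rpow_of_exponent_lt h3 hlt
      linarith [h2.2]
    exact (hf.exists).elim fun _ h => h
  have key1 : ∀ s ∈ T, ∀ a : ℝ, (∀ᶠ j in (φ : Filter ℕ), f j ≤ X j ^ a) → s ≤ a := by
    intro s hs a ha
    by_contra hlt
    push Not at hlt
    have hf : ∀ᶠ j in (φ : Filter ℕ), False := by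
      have hs' : ∀ᶠ j in (φ : Filter ℕ), X j ^ s ≤ f j := hs
      filter_upwards [hs', ha, hX1] with j h1 h2 h3
      have := Real.rpow_lt_rpow_of_exponent_lt h3 hlt
      linarith
    exact (hf.exists).elim fun _ h => h
  have key2 : ∀ a : ℝ, sSup T < a → ∀ᶠ j in (φ : Filter ℕ), f j ≤ X j ^ a := by
    intro a ha
    have h1 : ¬ ∀ᶠ j in (φ : Filter ℕ), X j ^ a ≤ f j := fun h => by
      have := le_csSup hbd (show a ∈ T from h)
      linarith
    have h2 := Ultrafilter.eventually_not.2 h1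
    exact h2.mono fun j hj => (not_le.1 hj).le
  have key3 : ∀ a : ℝ, a < sSup T → ∀ᶠ j in (φ : Filter ℕ), X j ^ a ≤ f j := by
    intro a ha
    obtain ⟨s, hs, hs'⟩ := exists_lt_of_lt_csSup hne ha
    have hs2 : ∀ᶠ j in (φ : Filter ℕ), X j ^ s ≤ f j := hs
    filter_upwards [hs2, hX1] with j h1 h2
    exact (Real.rpow_le_rpow_of_exponent_le h2.le hs'.le).trans h1
  refine ⟨sSup T, fun a => ⟨⟨fun h ε hε => key2 _ (by linarith), fun h => ?_⟩,
    ⟨fun h ε hε => key3 _ (by linarith), fun h => ?_⟩⟩⟩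
  · refine le_of_forall_pos_le_add fun ε hε => ?_
    exact csSup_le hne fun s hs => key1 s hs _ (h ε hε)
  · refine le_of_forall_pos_le_add fun ε hε => ?_
    have := le_csSup hbd (show a - ε ∈ T from h ε hε)
    linarith

section
variable {M : Type} [Field M] [NumberField M] {S : Finset ℕ}

/-- exponents of the sequences which represent an element -/
theorem expo_om (hOMG : ST_OMG) [IsGalois ℚ M] (P : PF S M) (φ : Ultrafilter ℕ) (X : ℕ → ℝ)
    (hS : ∀ p ∈ S, p.Prime) (hX : Tendsto X (φ : Filter ℕ) atTop) (i : Pl S M)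
    (g : Om P φ X) (hg : g ≠ 0) : ∃ L : ℝ, ∀ z : ℕ → M, gm φ z = (g : UP M φ) → ∀ a : ℝ,
      (L ≤ a ↔ LeA P φ X i z a) ∧ (a ≤ L ↔ GeA P φ X i z a) := by
  obtain ⟨-, -, -, -, -, -, hex, hsz⟩ := hOMG M S P φ X hS hX
  obtain ⟨z₀, hz₀⟩ := hex (g : UP M φ)
  obtain ⟨A, -, hA⟩ := hsz g z₀ hz₀ hg
  obtain ⟨L, hL⟩ := exists_expo (f := fun j => P.nv i.1 (i.2 (z₀ j))) hX
    ⟨A, hA.mono fun j hj => hj i.1 i.1.2 i.2⟩
  refine ⟨L, fun z hz a => ?_⟩
  have heq : ∀ᶠ j in (φ : Filter ℕ), z₀ j = z j := Quotient.exact (hz₀.trans hz.symm)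
  constructor
  · rw [(hL a).1]
    constructor
    · intro h ε hε
      filter_upwards [heq, h ε hε] with j h1 h2
      rw [← h1]; exact h2
    · intro h ε hε
      filter_upwards [heq, h ε hε] with j h1 h2
      rw [h1]; exact h2
  · rw [(hL a).2]
    constructor
    · intro h ε hε
      filter_upwards [heq, h ε hε] with j h1 h2
      rw [← h1]; exact h2
    · intro h ε hε
      filter_upwards [heq, h ε hε] with j h1 h2
      rw [h1]; exact h2

end

theorem NRM (hOMG : ST_OMG) : ST_NRM := by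
  intro M _ _ _ S P φ X hS hX
  classical
  have hX1 : ∀ᶠ j in (φ : Filter ℕ), 1 < X j := hX.eventually_gt_atTop 1
  have hE := expo_om hOMG P φ X hS hX
  choose! L hL using hE
  have hex : ∀ g : UP M φ, ∃ z : ℕ → M, gm φ z = g := (hOMG M S P φ X hS hX).2.2.2.2.2.2.1
  choose rp hrp using hex
  set N : Pl S M → Om P φ X → ℝ := fun i g => if g = 0 then 0 else Real.exp (L i g) with hN
  have N0 : ∀ i, N i 0 = 0 := fun i => by simp [hN]
  have N1 : ∀ i g, g ≠ 0 → N i g = Real.exp (L i g) := fun i g hg => by simp [hN, hg]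
  have Nn : ∀ i g, 0 ≤ N i g := by
    intro i g
    by_cases hg : g = 0
    · rw [hg, N0]
    · rw [N1 i g hg]; exact (Real.exp_pos _).le
  have rep_mul : ∀ g h : Om P φ X, gm φ (fun j => rp (g : UP M φ) j * rp (h : UP M φ) j) =
      ((g * h : Om P φ X) : UP M φ) := by
    intro g h
    have : gm φ (fun j => rp (g : UP M φ) j * rp (h : UP M φ) j) =
      gm φ (rp (g : UP M φ)) * gm φ (rp (h : UP M φ)) := rfl
    rw [this, hrp, hrp]
    rfl
  have rep_add : ∀ g h : Om P φ X, gm φ (fun j => rp (g : UP M φ) j + rp (h : UP M φ) j) =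
      ((g + h : Om P φ X) : UP M φ) := by
    intro g h
    have : gm φ (fun j => rp (g : UP M φ) j + rp (h : UP M φ) j) =
      gm φ (rp (g : UP M φ)) + gm φ (rp (h : UP M φ)) := rfl
    rw [this, hrp, hrp]
    rfl
  have Lmul : ∀ i g h, g ≠ 0 → h ≠ 0 → L i (g * h) = L i g + L i h := by
    intro i g h hg hh
    have hgh : g * h ≠ 0 := mul_ne_zero hg hh
    apply le_antisymm
    · refine ((hL i (g * h) hgh _ (rep_mul g h) _).1).2 fun ε hε => ?_
      have h1 := ((hL i g hg _ (hrp _) (L i g)).1).1 le_rfl (ε / 2) (by positivity)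
      have h2 := ((hL i h hh _ (hrp _) (L i h)).1).1 le_rfl (ε / 2) (by positivity)
      filter_upwards [h1, h2, hX1] with j a b hx
      rw [map_mul, P.mul i.1 i.1.2]
      calc _ ≤ X j ^ (L i g + ε / 2) * X j ^ (L i h + ε / 2) :=
            mul_le_mul a b (P.nn _ _) (Real.rpow_nonneg (by linarith) _)
        _ = X j ^ (L i g + L i h + ε) := by
            rw [← Real.rpow_add (by linarith)]
            congr 1
            ring
    · refine ((hL i (g * h) hgh _ (rep_mul g h) _).2).2 fun ε hε => ?_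
      have h1 := ((hL i g hg _ (hrp _) (L i g)).2).1 le_rfl (ε / 2) (by positivity)
      have h2 := ((hL i h hh _ (hrp _) (L i h)).2).1 le_rfl (ε / 2) (by positivity)
      filter_upwards [h1, h2, hX1] with j a b hx
      rw [map_mul, P.mul i.1 i.1.2]
      calc X j ^ (L i g + L i h - ε) = X j ^ (L i g - ε / 2) * X j ^ (L i h - ε / 2) := by
            rw [← Real.rpow_add (by linarith)]
            congr 1
            ring
        _ ≤ _ := mul_le_mul a b (Real.rpow_nonneg (by linarith) _) (P.nn _ _)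
  have Nult : ∀ i g h, N i (g + h) ≤ max (N i g) (N i h) := by
    intro i g h
    by_cases hg : g = 0
    · rw [hg, zero_add]; exact le_max_right _ _
    by_cases hh : h = 0
    · rw [hh, add_zero]; exact le_max_left _ _
    by_cases hgh : g + h = 0
    · rw [hgh, N0]; exact le_max_of_le_left (Nn i g)
    rw [N1 i g hg, N1 i h hh, N1 i (g + h) hgh, ← (Real.exp_monotone).map_max]
    apply Real.exp_le_exp.2
    refine ((hL i (g + h) hgh _ (rep_add g h) _).1).2 fun ε hε => ?_
    have h1 := ((hL i g hg _ (hrp _) (max (L i g) (L i h))).1).1 (le_max_left _ _) (ε / 2)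
      (by positivity)
    have h2 := ((hL i h hh _ (hrp _) (max (L i g) (L i h))).1).1 (le_max_right _ _) (ε / 2)
      (by positivity)
    have h3 : ∀ᶠ j in (φ : Filter ℕ), 2 ≤ X j ^ (ε / 2) :=
      ((tendsto_rpow_atTop (show 0 < ε / 2 by positivity)).comp hX).eventually_ge_atTop 2
    filter_upwards [h1, h2, h3, hX1] with j a b c hx
    rw [map_add]
    have hp : 0 ≤ X j ^ (max (L i g) (L i h) + ε / 2) := Real.rpow_nonneg (by linarith) _
    calc _ ≤ P.nv i.1 (i.2 (rp (g : UP M φ) j)) + P.nv i.1 (i.2 (rp (h : UP M φ) j)) :=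
          P.add i.1 i.1.2 _ _
      _ ≤ X j ^ (max (L i g) (L i h) + ε / 2) + X j ^ (max (L i g) (L i h) + ε / 2) :=
          add_le_add a b
      _ = 2 * X j ^ (max (L i g) (L i h) + ε / 2) := by ring
      _ ≤ X j ^ (ε / 2) * X j ^ (max (L i g) (L i h) + ε / 2) :=
          mul_le_mul_of_nonneg_right c hp
      _ = X j ^ (max (L i g) (L i h) + ε) := by
          rw [← Real.rpow_add (by linarith)]
          congr 1
          ring
  let nu : Pl S M → AbsoluteValue (Om P φ X) ℝ := fun i =>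
    { toFun := N i
      map_mul' := by
        intro g h
        by_cases hg : g = 0
        · rw [hg, zero_mul, N0, zero_mul]
        by_cases hh : h = 0
        · rw [hh, mul_zero, N0, mul_zero]
        rw [N1 i g hg, N1 i h hh, N1 i (g * h) (mul_ne_zero hg hh), Lmul i g h hg hh, Real.exp_add]
      nonneg' := Nn i
      eq_zero' := by
        intro g
        constructor
        · intro h
          by_contra hg
          rw [N1 i g hg] at h
          exact (Real.exp_pos _).ne' h
        · intro h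
          rw [h, N0]
      add_le' := by
        intro g h
        exact (Nult i g h).trans (max_le (le_add_of_nonneg_right (Nn i h))
          (le_add_of_nonneg_left (Nn i g))) }
  have nu_ap : ∀ i g, nu i g = N i g := fun _ _ => rfl
  refine ⟨nu, ?_, ?_⟩
  · intro i g h
    rw [nu_ap, nu_ap, nu_ap]
    exact Nult i g h
  · intro i g z hz a
    rw [nu_ap]
    by_cases hg : g = 0
    · have hz0 : ∀ᶠ j in (φ : Filter ℕ), z j = 0 := by
        have : gm φ z = gm φ (fun _ => (0 : M)) := by
          rw [hz, hg]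
          rfl
        exact Quotient.exact this
      rw [hg, N0]
      constructor
      · refine ⟨fun _ ε _ => ?_, fun _ => (Real.exp_pos a).le⟩
        filter_upwards [hz0, hX1] with j h1 h2
        rw [h1, map_zero, P.nz]
        exact Real.rpow_nonneg (by linarith) _
      · refine ⟨fun h => absurd h (not_le.2 (Real.exp_pos a)), fun h => ?_⟩
        have hf : ∀ᶠ j in (φ : Filter ℕ), False := by
          filter_upwards [hz0, hX1, h 1 one_pos] with j h1 h2 h3
          rw [h1, map_zero, P.nz] at h3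
          exact absurd h3 (not_le.2 (Real.rpow_pos_of_pos (by linarith) _))
        exact (hf.exists).elim fun _ h => h.elim
    · rw [N1 i g hg, Real.exp_le_exp, Real.exp_le_exp]
      exact hL i g hg z hz a

end Pool.Agent.Helper97.JN
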