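import Pool.Agent.Helper71.JN.SheetC

/-! Row BIN of project JN (MP_9d7cd1_nt): truncated binomial series. -/

set_option autoImplicit false

namespace Pool.Agent.Helper97.JN

open Polynomial Pool.Agent.Helper71.JN

theorem bin_pos (n : ℕ) (hn : 1 ≤ n) (K : ℕ) (hK : 1 ≤ K) : ∃ p : ℚ[X],
    p.coeff 0 = 1 ∧ (X : ℚ[X]) ^ K ∣ p ^ n - (1 + X) := by
  induction K, hK using Nat.le_induction with
  | base =>
    refine ⟨1, by simp, ⟨-1, ?_⟩⟩
    rw [one_pow, pow_one]
    ring
  | succ K hK ih =>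
    obtain ⟨p, hp, u, hu⟩ := ih
    have hn0 : (n : ℚ) ≠ 0 := by
      have : n ≠ 0 := by omega
      exact_mod_cast this
    set c : ℚ := -(u.coeff 0) / n with hc
    obtain ⟨k, hk⟩ := Polynomial.powAddExpansion p (C c * X ^ K) n
    have hpn : (p ^ (n - 1)).coeff 0 = 1 := by
      rw [coeff_zero_eq_eval_zero, eval_pow, ← coeff_zero_eq_eval_zero, hp, one_pow]
    refine ⟨p + C c * X ^ K, ?_, ?_⟩
    · rw [coeff_add, hp, coeff_C_mul, coeff_X_pow, if_neg (by omega), mul_zero, add_zero]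
    · have e1 : (p + C c * X ^ K) ^ n - (1 + X) =
          X ^ K * (u + (n : ℚ[X]) * p ^ (n - 1) * C c) + X ^ (K + 1) * (X ^ (K - 1) * (k * C c ^ 2)) := by
        rw [hk]
        have e2 : (X : ℚ[X]) ^ (K + 1) * (X ^ (K - 1) * (k * C c ^ 2)) = k * (C c * X ^ K) ^ 2 := by
          have : (X : ℚ[X]) ^ (K + 1) * X ^ (K - 1) = (X ^ K) ^ 2 := by
            rw [← pow_add, ← pow_mul]
            congr 1
            omega
          rw [← mul_assoc, this]
          ring
        rw [e2]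
        linear_combination hu
      have h0 : (X : ℚ[X]) ∣ u + (n : ℚ[X]) * p ^ (n - 1) * C c := by
        rw [X_dvd_iff, coeff_add, coeff_mul_C, mul_coeff_zero, hpn, ← C_eq_natCast, coeff_C_zero,
          mul_one, hc]
        field_simp
        ring
      rw [e1]
      refine dvd_add ?_ (dvd_mul_right _ _)
      rw [pow_succ]
      exact mul_dvd_mul_left _ h0

theorem BIN : ST_BIN := by
  intro n K hn hK
  obtain ⟨p, hp, u, hu⟩ := bin_pos n hn K hK
  have h1 : (X : ℚ[X]) ∣ 1 - p := by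
    rw [X_dvd_iff, coeff_sub, hp, coeff_one_zero, sub_self]
  obtain ⟨w, hw⟩ := pow_dvd_pow_of_dvd h1 K
  set p' : ℚ[X] := ∑ i ∈ Finset.range K, (1 - p) ^ i with hp'
  have h2 : p * p' - 1 = X ^ K * (-w) := by
    have := mul_neg_geom_sum (1 - p) K
    rw [sub_sub_cancel] at this
    rw [hp', this, hw]
    ring
  refine ⟨p, p', hp, ?_, ⟨u, hu⟩, ⟨-w, h2⟩⟩
  have h3 := congrArg (fun q : ℚ[X] => q.coeff 0) h2
  simp only [coeff_sub, mul_coeff_zero, hp, one_mul, coeff_one_zero, coeff_X_pow] at h3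
  rw [if_neg (by omega), zero_mul] at h3
  linarith

end Pool.Agent.Helper97.JN
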