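import Pool.Agent.Helper71.JN.SheetB

/-! Row N3 of project JN (MP_9d7cd1_nt): the degree of `x` over `K` is at most 2. -/

set_option autoImplicit false

namespace Pool.Agent.Helper97.JN

open Polynomial Pool.Agent.Helper71.JN

/-- three values: at most two of the roots are different -/
theorem three {E : Type} [Field E] [CharZero E] (a₁ a₂ a₃ y₁ y₂ y₃ : E) (h12 : a₁ ≠ a₂)
    (h13 : a₁ ≠ a₃) (h23 : a₂ ≠ a₃) (e12 : 8 * (y₁ - y₂) ^ 2 = 9 * (a₁ + a₂) * (a₁ - a₂) ^ 2)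
    (e13 : 8 * (y₁ - y₃) ^ 2 = 9 * (a₁ + a₃) * (a₁ - a₃) ^ 2)
    (e23 : 8 * (y₂ - y₃) ^ 2 = 9 * (a₂ + a₃) * (a₂ - a₃) ^ 2) : False := by
  have n12 : a₁ - a₂ ≠ 0 := sub_ne_zero.2 h12
  have n13 : a₁ - a₃ ≠ 0 := sub_ne_zero.2 h13
  have n23 : a₂ - a₃ ≠ 0 := sub_ne_zero.2 h23
  obtain ⟨c, hc⟩ : ∃ c, y₁ - y₂ = c * (a₁ - a₂) := ⟨(y₁ - y₂) / (a₁ - a₂), by field_simp⟩
  obtain ⟨b, hb⟩ : ∃ b, y₁ - y₃ = b * (a₁ - a₃) := ⟨(y₁ - y₃) / (a₁ - a₃), by field_simp⟩
  obtain ⟨a, ha⟩ : ∃ a, y₂ - y₃ = a * (a₂ - a₃) := ⟨(y₂ - y₃) / (a₂ - a₃), by field_simp⟩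
  have c2 : 8 * c ^ 2 = 9 * (a₁ + a₂) := by
    have := e12
    rw [hc] at this
    exact mul_right_cancel₀ (pow_ne_zero 2 n12) (by linear_combination this)
  have b2 : 8 * b ^ 2 = 9 * (a₁ + a₃) := by
    have := e13
    rw [hb] at this
    exact mul_right_cancel₀ (pow_ne_zero 2 n13) (by linear_combination this)
  have a2 : 8 * a ^ 2 = 9 * (a₂ + a₃) := by
    have := e23
    rw [ha] at this
    exact mul_right_cancel₀ (pow_ne_zero 2 n23) (by linear_combination this)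
  have s : c * (a₁ - a₂) + a * (a₂ - a₃) - b * (a₁ - a₃) = 0 := by
    linear_combination -hc - ha + hb
  have d12 : 9 * (a₁ - a₂) = 8 * (b ^ 2 - a ^ 2) := by linear_combination a2 - b2
  have d23 : 9 * (a₂ - a₃) = 8 * (c ^ 2 - b ^ 2) := by linear_combination b2 - c2
  have d13 : 9 * (a₁ - a₃) = 8 * (c ^ 2 - a ^ 2) := by linear_combination a2 - c2
  have k : (8 : E) * ((a - b) * (b - c) * (c - a)) = 0 := by
    linear_combination (-9) * s + c * d12 + a * d23 - b * d13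
  have h9 : (9 : E) ≠ 0 := by norm_num
  have h8 : (8 : E) ≠ 0 := by norm_num
  rcases mul_eq_zero.1 k with h | h
  · exact h8 h
  rcases mul_eq_zero.1 h with h | h
  · rcases mul_eq_zero.1 h with h | h
    · apply mul_ne_zero h9 n12
      rw [d12, sub_eq_zero.1 h]; ring
    · apply mul_ne_zero h9 n23
      rw [d23, sub_eq_zero.1 h]; ring
  · apply mul_ne_zero h9 n13
    rw [d13, sub_eq_zero.1 h]; ring

theorem N3 : ST_N3 := by
  intro K E Ω _ _ _ _ _ _ _ x q hx h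
  classical
  have : CharZero E := charZero_of_injective_algebraMap (algebraMap K E).injective
  by_contra hlt
  push Not at hlt
  have hirr := minpoly.irreducible hx
  have hsep : (minpoly K x).Separable := hirr.separable
  have hcard : ((minpoly K x).rootSet E).toFinset.card = (minpoly K x).natDegree := by
    rw [Set.toFinset_card]
    exact Polynomial.card_rootSet_eq_natDegree hsep (IsAlgClosed.splits _)
  rw [← hcard] at hlt
  obtain ⟨a₁, a₂, a₃, m1, m2, m3, n12, n13, n23⟩ := Finset.two_lt_card_iff.1 hlt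
  have r : ∀ t ∈ ((minpoly K x).rootSet E).toFinset, aeval t (minpoly K x) = 0 := by
    intro t ht
    rw [Set.mem_toFinset, Polynomial.mem_rootSet] at ht
    exact ht.2
  exact three a₁ a₂ a₃ (aeval a₁ q) (aeval a₂ q) (aeval a₃ q) n12 n13 n23
    (h _ _ (r _ m1) (r _ m2)) (h _ _ (r _ m1) (r _ m3)) (h _ _ (r _ m2) (r _ m3))

end Pool.Agent.Helper97.JN
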