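import Pool.Agent.Helper97.JN.BIN

/-! Row ROOT of project JN (MP_9d7cd1_nt): the `n`-th root of `w ^ n + A`. -/

set_option autoImplicit false

namespace Pool.Agent.Helper97.JN

open Filter Finset Pool.Agent.Helper70.SUB Pool.Agent.Helper77.SUBK Pool.Agent.Helper70.SUBL
  Pool.Agent.Helper70.SUBW Pool.Agent.Helper71.JN

section
variable {M : Type} [Field M] [NumberField M] {S : Finset ℕ} (P : PF S M)
  {φ : Ultrafilter ℕ} {X : ℕ → ℝ}

/-- the value of a polynomial at small elements is bounded -/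
theorem nv_aeval_le (q : Polynomial ℚ) : ∃ C : ℝ, 0 < C ∧ ∀ v : M, P.nv none v ≤ 1 →
    P.nv none (Polynomial.aeval v q) ≤ C := by
  induction q using Polynomial.induction_on' with
  | add p q hp hq =>
    obtain ⟨C, hC, h⟩ := hp
    obtain ⟨C', hC', h'⟩ := hq
    refine ⟨C + C', by positivity, fun v hv => ?_⟩
    rw [map_add]
    exact (P.add none mem_none _ _).trans (add_le_add (h v hv) (h' v hv))
  | monomial n a =>
    refine ⟨P.nv none (algebraMap ℚ M a) + 1, by have := P.nn none (algebraMap ℚ M a); linarith,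
      fun v hv => ?_⟩
    rw [Polynomial.aeval_monomial, P.mul none mem_none, P.pow mem_none]
    have h1 : P.nv none v ^ n ≤ 1 := pow_le_one₀ (P.nn _ _) hv
    have h2 := P.nn none (algebraMap ℚ M a)
    nlinarith

/-- polynomials in sums of moderate units -/
theorem spm_aeval [IsGalois ℚ M] (hSLW : ST_SLW) (hSPW : ST_SPW) (hS : ∀ p ∈ S, p.Prime)
    (hX : Tendsto X (φ : Filter ℕ) atTop) {v : ℕ → M} (hv : SpM P φ X v) (q : Polynomial ℚ) :
    SpM P φ X (fun j => Polynomial.aeval (v j) q) := by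
  obtain ⟨hcst, -⟩ := hSLW M S P φ X hS hX
  obtain ⟨-, -, -, -, -, hsl, -, hring, hpow, -⟩ := hSPW M S P φ X hS hX
  induction q using Polynomial.induction_on' with
  | add p q hp hq =>
    have := (hring _ _ hp hq).1
    simpa only [map_add] using this
  | monomial n a =>
    have h1 := (hring _ _ (hsl _ (hcst (algebraMap ℚ M a))) (hpow _ n hv)).2
    simpa only [Polynomial.aeval_monomial] using h1

end

theorem ROOT (hSLW : ST_SLW) (hSPW : ST_SPW) : ST_ROOT := by
  intro M _ _ _ S P φ X n w A ρ B hS hX hn hρ hw hA hsm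
  obtain ⟨-, hinv, -, -, -, -, hMS, hring, hpow, -⟩ := hSPW M S P φ X hS hX
  have hwi := hinv w hw
  obtain ⟨hw1, D, hD, hw2⟩ := id hw
  obtain ⟨K₀, hK₀⟩ := exists_nat_ge ((n * D + B + 1) / ρ)
  set K := K₀ + 1 with hKdef
  have hK : (n : ℝ) * D + B + 1 ≤ ρ * K := by
    have h1 : (n * D + B + 1) / ρ ≤ (K : ℝ) := by
      rw [hKdef]; push_cast; linarith
    rw [div_le_iff₀ hρ] at h1
    linarith
  obtain ⟨p, p', hp0, -, ⟨u, hu⟩, ⟨u', hu'⟩⟩ := BIN n K hn (by omega)
  obtain ⟨q, hq⟩ : (Polynomial.X : Polynomial ℚ) ∣ p - 1 := by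
    rw [Polynomial.X_dvd_iff, Polynomial.coeff_sub, hp0, Polynomial.coeff_one_zero, sub_self]
  obtain ⟨C, hC, hCu⟩ := nv_aeval_le P u
  obtain ⟨C', hC', hCu'⟩ := nv_aeval_le P u'
  obtain ⟨C'', hC'', hCq⟩ := nv_aeval_le P q
  set v : ℕ → M := fun j => A j * (w j)⁻¹ ^ n with hv
  have hvS : SpM P φ X v := (hring _ _ hA (hpow _ n (hMS _ hwi))).2
  refine ⟨fun j => w j * Polynomial.aeval (v j) p, fun j => (w j)⁻¹ * Polynomial.aeval (v j) p',
    (hring _ _ (hMS _ hw) (spm_aeval P hSLW hSPW hS hX hvS p)).2,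
    (hring _ _ (hMS _ hwi) (spm_aeval P hSLW hSPW hS hX hvS p')).2, ?_⟩
  have hbig : ∀ᶠ j in (φ : Filter ℕ), C'' ≤ X j ^ (ρ / 2) :=
    ((tendsto_rpow_atTop (show 0 < ρ / 2 by positivity)).comp hX).eventually_ge_atTop C''
  filter_upwards [hw1, hw2, hsm, hX.eventually_gt_atTop 1, hX.eventually_ge_atTop C,
    hX.eventually_ge_atTop C', hbig] with j h1 h2 h3 hX1 hXC hXC' hXC''
  have hX0 : 0 < X j := by linarith
  have hw0 : w j ≠ 0 := h1.1
  have hwp : 0 < P.nv none (w j) := P.pos none mem_none _ hw0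
  have hwD : P.nv none (w j) ≤ X j ^ D := by
    have := h2 none mem_none 1
    simpa using this
  have hAv : A j = w j ^ n * v j := by
    rw [hv]
    simp only
    rw [inv_pow]
    field_simp
  have hvn : P.nv none (v j) ≤ X j ^ (-ρ) := by
    have e1 : P.nv none (A j) = P.nv none (w j) ^ n * P.nv none (v j) := by
      rw [hAv, P.mul none mem_none, P.pow mem_none]
    rw [e1] at h3
    exact le_of_mul_le_mul_left h3 (pow_pos hwp n)
  have hv1 : P.nv none (v j) ≤ 1 :=
    hvn.trans (Real.rpow_le_one_of_one_le_of_nonpos hX1.le (by linarith))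
  have hvK : P.nv none (v j) ^ K ≤ X j ^ (-(ρ * K)) := by
    calc P.nv none (v j) ^ K ≤ (X j ^ (-ρ)) ^ K := pow_le_pow_left₀ (P.nn _ _) hvn K
      _ = X j ^ (-(ρ * K)) := by
        rw [← Real.rpow_natCast, ← Real.rpow_mul hX0.le]
        congr 1
        ring
  have hwn : P.nv none (w j) ^ n ≤ X j ^ (D * n) := by
    calc P.nv none (w j) ^ n ≤ (X j ^ D) ^ n := pow_le_pow_left₀ (P.nn _ _) hwD n
      _ = X j ^ (D * n) := by rw [← Real.rpow_natCast, ← Real.rpow_mul hX0.le]
  have hn0 : (0 : ℝ) ≤ n := Nat.cast_nonneg n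
  refine ⟨?_, ?_, ?_⟩
  · have e1 := congrArg (Polynomial.aeval (v j)) hu
    simp only [map_sub, map_pow, map_add, map_one, Polynomial.aeval_X, map_mul] at e1
    have e2 : (w j * Polynomial.aeval (v j) p) ^ n - (w j ^ n + A j) =
        w j ^ n * (v j ^ K * Polynomial.aeval (v j) u) := by
      rw [← e1, hAv, mul_pow]
      ring
    rw [e2, P.mul none mem_none, P.mul none mem_none, P.pow mem_none, P.pow mem_none]
    calc P.nv none (w j) ^ n * (P.nv none (v j) ^ K * P.nv none (Polynomial.aeval (v j) u))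
        ≤ X j ^ (D * n) * (X j ^ (-(ρ * K)) * X j ^ (1 : ℝ)) := by
          apply mul_le_mul hwn _ (mul_nonneg (pow_nonneg (P.nn _ _) _) (P.nn _ _))
            (Real.rpow_nonneg hX0.le _)
          apply mul_le_mul hvK _ (P.nn _ _) (Real.rpow_nonneg hX0.le _)
          rw [Real.rpow_one]
          exact (hCu _ hv1).trans hXC
      _ = X j ^ (D * n + (-(ρ * K) + 1)) := by rw [← Real.rpow_add hX0, ← Real.rpow_add hX0]
      _ ≤ X j ^ (-B) := Real.rpow_le_rpow_of_exponent_le hX1.le (by linarith)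
  · have e1 := congrArg (Polynomial.aeval (v j)) hu'
    simp only [map_sub, map_pow, map_one, Polynomial.aeval_X, map_mul] at e1
    have e2 : w j * Polynomial.aeval (v j) p * ((w j)⁻¹ * Polynomial.aeval (v j) p') - 1 =
        v j ^ K * Polynomial.aeval (v j) u' := by
      rw [← e1]
      field_simp
    rw [e2, P.mul none mem_none, P.pow mem_none]
    have hnD : 0 ≤ (n : ℝ) * D := mul_nonneg hn0 hD.le
    calc P.nv none (v j) ^ K * P.nv none (Polynomial.aeval (v j) u')
        ≤ X j ^ (-(ρ * K)) * X j ^ (1 : ℝ) := by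
          apply mul_le_mul hvK _ (P.nn _ _) (Real.rpow_nonneg hX0.le _)
          rw [Real.rpow_one]
          exact (hCu' _ hv1).trans hXC'
      _ = X j ^ (-(ρ * K) + 1) := by rw [← Real.rpow_add hX0]
      _ ≤ X j ^ (-B) := Real.rpow_le_rpow_of_exponent_le hX1.le (by linarith)
  · have e1 := congrArg (Polynomial.aeval (v j)) hq
    simp only [map_sub, map_one, Polynomial.aeval_X, map_mul] at e1
    have e2 : w j * Polynomial.aeval (v j) p - w j = w j * (v j * Polynomial.aeval (v j) q) := by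
      rw [← e1]
      ring
    rw [e2, P.mul none mem_none, P.mul none mem_none]
    apply mul_le_mul_of_nonneg_left _ hwp.le
    calc P.nv none (v j) * P.nv none (Polynomial.aeval (v j) q)
        ≤ X j ^ (-ρ) * X j ^ (ρ / 2) :=
          mul_le_mul hvn ((hCq _ hv1).trans hXC'') (P.nn _ _) (Real.rpow_nonneg hX0.le _)
      _ = X j ^ (-(ρ / 2)) := by
          rw [← Real.rpow_add hX0]
          congr 1
          ring

end Pool.Agent.Helper97.JN
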