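import Mathlib

/-! UFD part of row ZW of project JN (MP_9d7cd1_nt): for a point `(X, Y)` of `Y ^ 2 = X ^ 3 + d` over
the field of fractions and a derivation `δ` the element `2 X δY - 3 Y δX` lies in the ring. -/

set_option autoImplicit false

namespace Pool.Agent.Helper97.JN

/-- lowest terms: `X = A / c ^ 2`, `Y = B / c ^ 3` with `B` prime to `c` -/
theorem lowest_terms {A K : Type} [CommRing A] [IsDomain A] [UniqueFactorizationMonoid A] [Field K]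
    (ι : A →+* K) (hι : Function.Injective ι) (X Y : K) (d : A)
    (hX : ∃ a b, ι b ≠ 0 ∧ X = ι a / ι b) (hY : ∃ a b, ι b ≠ 0 ∧ Y = ι a / ι b)
    (h : Y ^ 2 = X ^ 3 + ι d) :
    ∃ a b c : A, c ≠ 0 ∧ IsRelPrime b c ∧ X * ι c ^ 2 = ι a ∧ Y * ι c ^ 3 = ι b := by
  have red : ∀ Z : K, (∃ a b, ι b ≠ 0 ∧ Z = ι a / ι b) →
      ∃ a b, b ≠ 0 ∧ IsRelPrime a b ∧ Z * ι b = ι a := by
    rintro Z ⟨a, b, hb, rfl⟩
    have hb0 : b ≠ 0 := fun h => hb (by rw [h, map_zero])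
    obtain ⟨a', b', c', hr, ha, hb'⟩ := UniqueFactorizationMonoid.exists_reduced_factors' a b hb0
    have hb1 : b' ≠ 0 := fun h => hb0 (by rw [← hb', h, mul_zero])
    have hc1 : c' ≠ 0 := fun h => hb0 (by rw [← hb', h, zero_mul])
    have hb2 : ι b' ≠ 0 := fun h => hb1 (hι (by rw [h, map_zero]))
    have hc2 : ι c' ≠ 0 := fun h => hc1 (hι (by rw [h, map_zero]))
    refine ⟨a', b', hb1, hr, ?_⟩
    rw [← ha, ← hb', map_mul, map_mul]
    field_simp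
  obtain ⟨a, b, hb, hab, hXb⟩ := red X hX
  obtain ⟨a', b', hb', hab', hYb⟩ := red Y hY
  have eq1 : a' ^ 2 * b ^ 3 = (a ^ 3 + d * b ^ 3) * b' ^ 2 := by
    apply hι
    simp only [map_mul, map_pow, map_add]
    rw [← hXb, ← hYb]
    linear_combination (ι b' ^ 2 * ι b ^ 3) * h
  have r1 : IsRelPrime (b ^ 3) (a ^ 3 + d * b ^ 3) := by
    have h1 : IsRelPrime (a ^ 3) (b ^ 3) := hab.pow
    have h2 := h1.add_mul_left_left d
    rw [mul_comm (b ^ 3) d] at h2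
    exact h2.symm
  have r2 : IsRelPrime (b' ^ 2) (a' ^ 2) := hab'.pow.symm
  have d1 : b ^ 3 ∣ b' ^ 2 := r1.dvd_of_dvd_mul_left ⟨a' ^ 2, by rw [← eq1]; ring⟩
  have d2 : b' ^ 2 ∣ b ^ 3 := r2.dvd_of_dvd_mul_left ⟨a ^ 3 + d * b ^ 3, by rw [eq1]; ring⟩
  obtain ⟨u, hu⟩ := associated_of_dvd_dvd d1 d2
  have d3 : b ∣ b' := by
    rw [← IsIntegrallyClosed.pow_dvd_pow_iff (n := 2) two_ne_zero]
    exact (pow_dvd_pow b (by norm_num)).trans d1
  obtain ⟨c, hc⟩ := d3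
  have hc0 : c ≠ 0 := fun h => hb' (by rw [hc, h, mul_zero])
  have e1 : c ^ 2 = b * u := by
    apply mul_left_cancel₀ (pow_ne_zero 2 hb)
    rw [hc] at hu
    linear_combination -hu
  have e2 : c ^ 3 = b' * u := by
    rw [hc]
    linear_combination c * e1
  refine ⟨a * u, a' * u, c, hc0, ?_, ?_, ?_⟩
  · have h3 : IsRelPrime a' c := hab'.of_dvd_right ⟨b, by rw [hc]; ring⟩
    exact (isRelPrime_mul_unit_right_left u.isUnit).2 h3
  · rw [← map_pow, e1, map_mul, map_mul, ← hXb]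
    ring
  · rw [← map_pow, e2, map_mul, map_mul, ← hYb]
    ring

/-- `2 X δY - 3 Y δX` lies in the ring -/
theorem z_mem {A K : Type} [CommRing A] [IsDomain A] [UniqueFactorizationMonoid A] [Field K]
    (ι : A →+* K) (hι : Function.Injective ι) (δ : K → K)
    (hadd : ∀ a b, δ (a + b) = δ a + δ b) (hmul : ∀ a b, δ (a * b) = a * δ b + b * δ a)
    (hδ : ∀ a, ∃ a', δ (ι a) = ι a') (X Y : K) (d : A)
    (hX : ∃ a b, ι b ≠ 0 ∧ X = ι a / ι b) (hY : ∃ a b, ι b ≠ 0 ∧ Y = ι a / ι b)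
    (h : Y ^ 2 = X ^ 3 + ι d) : ∃ z : A, 2 * X * δ Y - 3 * Y * δ X = ι z := by
  obtain ⟨a, b, c, hc, hbc, hXc, hYc⟩ := lowest_terms ι hι X Y d hX hY h
  have hc0 : ι c ≠ 0 := fun h => hc (hι (by rw [h, map_zero]))
  obtain ⟨da, hda⟩ := hδ a
  obtain ⟨db, hdb⟩ := hδ b
  obtain ⟨dc, hdc⟩ := hδ c
  obtain ⟨dd, hdd⟩ := hδ d
  have p2 : ∀ z, δ (z ^ 2) = 2 * z * δ z := fun z => by rw [sq, hmul]; ring
  have p3 : ∀ z, δ (z ^ 3) = 3 * z ^ 2 * δ z := fun z => by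
    rw [pow_succ, hmul, p2]; ring
  have q1 : X * (2 * ι c * ι dc) + ι c ^ 2 * δ X = ι da := by
    rw [← hda, ← hXc, hmul, p2, hdc]
  have q2 : Y * (3 * ι c ^ 2 * ι dc) + ι c ^ 3 * δ Y = ι db := by
    rw [← hdb, ← hYc, hmul, p3, hdc]
  have q3 : 2 * Y * δ Y = 3 * X ^ 2 * δ X + ι dd := by
    have := congrArg δ h
    rwa [hadd, p2, p3, hdd] at this
  have n1 : ι c ^ 5 * (2 * X * δ Y - 3 * Y * δ X) = ι (2 * a * db - 3 * b * da) := by
    simp only [map_sub, map_mul, map_ofNat]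
    rw [← q1, ← q2, ← hXc, ← hYc]
    ring
  have n2 : b * (2 * a * db - 3 * b * da) =
      c ^ 5 * (c * a * dd - 3 * d * (c * da - 2 * a * dc)) := by
    apply hι
    rw [map_mul, ← n1, ← hYc]
    simp only [map_mul, map_sub, map_pow, map_ofNat]
    rw [← q1, ← hXc]
    have q4 : Y * (2 * X * δ Y - 3 * Y * δ X) = X * ι dd - 3 * ι d * δ X := by
      linear_combination X * q3 - 3 * δ X * h
    linear_combination (ι c ^ 8) * q4
  have n3 : c ^ 5 ∣ 2 * a * db - 3 * b * da := by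
    have h4 : IsRelPrime (c ^ 5) b := (hbc.symm).pow_left
    exact h4.dvd_of_dvd_mul_left ⟨_, n2⟩
  obtain ⟨z, hz⟩ := n3
  refine ⟨z, ?_⟩
  rw [hz, map_mul, map_pow] at n1
  exact mul_left_cancel₀ (pow_ne_zero 5 hc0) n1

end Pool.Agent.Helper97.JN
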